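import Mathlib

/-!
# Mod-Gaussian convergence implies a central limit theorem (abstract end of plan W)

If the characteristic functions `φ_k(b)` of probability measures on the line satisfy
`φ_k(b) exp(v a_k b² / 2) → M(b)` uniformly for `|b| ≤ b₀`, `M` continuous at `0`, `M 0 = 1`,
`a_k → ∞`, then `x / √a_k` under `μ_k` converges in law to the centred Gaussian of variance `v`.
-/

namespace Pool.Agent.PW8

open MeasureTheory ProbabilityTheory Filter Topology Complex
open scoped NNReal ENNReal Real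

/-- Abstract form. -/
theorem clt_of_mod (μ : ℕ → ProbabilityMeasure ℝ) (a : ℕ → ℝ) (ha : Tendsto a atTop atTop)
    (v : ℝ≥0) (b₀ : ℝ) (hb : 0 < b₀) (M : ℝ → ℂ) (hM : ContinuousAt M 0) (hM0 : M 0 = 1)
    (h : TendstoUniformlyOn
      (fun k b => charFun (μ k : Measure ℝ) b * Complex.exp ((v : ℝ) * a k * b ^ 2 / 2)) M atTop
      (Set.Icc (-b₀) b₀)) (x : ℝ) (hv : v ≠ 0) :
    Tendsto (fun k => (μ k : Measure ℝ).real (Set.Iic (x * √(a k)))) atTop
      (𝓝 ((gaussianReal 0 v).real (Set.Iic x))) := by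
  -- the rescaled measures
  let ν : ℕ → ProbabilityMeasure ℝ := fun k =>
    (μ k).map (f := fun y => (√(a k))⁻¹ * y) (by fun_prop)
  let γ : ProbabilityMeasure ℝ := ⟨gaussianReal 0 v, inferInstance⟩
  have hlim : Tendsto ν atTop (𝓝 γ) := by
    rw [ProbabilityMeasure.tendsto_iff_tendsto_charFun]
    intro t
    have e1 : ∀ k, charFun (ν k : Measure ℝ) t = charFun (μ k : Measure ℝ) ((√(a k))⁻¹ * t) := by
      intro k
      have : (ν k : Measure ℝ) = (μ k : Measure ℝ).map (fun y => (√(a k))⁻¹ * y) := rfl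
      rw [this]
      exact charFun_map_mul _ _
    have e2 : charFun (γ : Measure ℝ) t = Complex.exp (-(v : ℝ) * t ^ 2 / 2) := by
      change charFun (gaussianReal 0 v) t = _
      rw [charFun_gaussianReal]
      congr 1
      push_cast
      ring
    simp_rw [e1]
    rw [e2]
    have hb0 : Tendsto (fun k => (√(a k))⁻¹ * t) atTop (𝓝 0) := by
      have := (tendsto_inv_atTop_zero.comp (Real.tendsto_sqrt_atTop.comp ha)).mul_const t
      simpa using this
    have hmem : ∀ᶠ k in atTop, (√(a k))⁻¹ * t ∈ Set.Icc (-b₀) b₀ := by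
      have := hb0.eventually (Icc_mem_nhds (a := -b₀) (b := b₀) (by linarith) (by linarith))
      exact this
    -- the product tends to `M 0 = 1`
    have h1 : Tendsto (fun k => charFun (μ k : Measure ℝ) ((√(a k))⁻¹ * t) *
        Complex.exp ((v : ℝ) * a k * (((√(a k))⁻¹ * t : ℝ) : ℂ) ^ 2 / 2)) atTop (𝓝 1) := by
      rw [← hM0]
      have hMt : Tendsto (fun k => M ((√(a k))⁻¹ * t)) atTop (𝓝 (M 0)) := hM.tendsto.comp hb0
      rw [Metric.tendsto_nhds] at hMt ⊢
      intro ε hε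
      filter_upwards [hMt (ε / 2) (half_pos hε), hmem,
        (Metric.tendstoUniformlyOn_iff.1 h) (ε / 2) (half_pos hε)] with k h1 h2 h3
      have h4 := h3 _ h2
      calc dist _ (M 0) ≤ dist _ (M ((√(a k))⁻¹ * t)) + dist (M ((√(a k))⁻¹ * t)) (M 0) :=
            dist_triangle _ _ _
        _ < ε / 2 + ε / 2 := by
            refine add_lt_add ?_ h1
            rw [dist_comm]
            exact h4
        _ = ε := by ring
    have h2 : Tendsto (fun k => charFun (μ k : Measure ℝ) ((√(a k))⁻¹ * t)) atTop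
        (𝓝 (1 * Complex.exp (-(v : ℝ) * t ^ 2 / 2))) := by
      refine (h1.mul_const (Complex.exp (-(v : ℝ) * t ^ 2 / 2))).congr' ?_
      filter_upwards [ha.eventually_gt_atTop 0] with k hk
      rw [mul_assoc, ← Complex.exp_add]
      have : (v : ℝ) * a k * (((√(a k))⁻¹ * t : ℝ) : ℂ) ^ 2 / 2 + -(v : ℝ) * t ^ 2 / 2 = 0 := by
        have hs : (√(a k)) ^ 2 = a k := Real.sq_sqrt hk.le
        have hne : √(a k) ≠ 0 := (Real.sqrt_pos.2 hk).ne'
        have h3 : ((√(a k))⁻¹ * t) ^ 2 * a k = t ^ 2 := by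
          rw [mul_pow, inv_pow, hs]
          field_simp
        have h4 : ((((√(a k))⁻¹ * t : ℝ) : ℂ)) ^ 2 * (a k : ℂ) = (t : ℂ) ^ 2 := by
          exact_mod_cast h3
        linear_combination ((v : ℝ) : ℂ) / 2 * h4
      rw [this, Complex.exp_zero, mul_one]
    simpa using h2
  have hfr : γ (frontier (Set.Iic x)) = 0 := by
    rw [frontier_Iic]
    have : (gaussianReal 0 v) {x} = 0 := by
      have := nullSingletonClass_gaussianReal (μ := 0) hv
      exact measure_singleton x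
    rw [← ENNReal.coe_eq_zero, ProbabilityMeasure.ennreal_coeFn_eq_coeFn_toMeasure]
    exact this
  have key := ProbabilityMeasure.tendsto_measure_of_null_frontier_of_tendsto hlim hfr
  have key2 : Tendsto (fun k => ((ν k (Set.Iic x) : ℝ≥0) : ℝ)) atTop
      (𝓝 ((γ (Set.Iic x) : ℝ≥0) : ℝ)) := (NNReal.tendsto_coe).2 key
  have e3 : ((γ (Set.Iic x) : ℝ≥0) : ℝ) = (gaussianReal 0 v).real (Set.Iic x) := rfl
  rw [e3] at key2
  refine key2.congr' ?_
  filter_upwards [ha.eventually_gt_atTop 0] with k hk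
  have hpos : 0 < √(a k) := Real.sqrt_pos.2 hk
  have e4 : ((ν k (Set.Iic x) : ℝ≥0) : ℝ) = (ν k : Measure ℝ).real (Set.Iic x) := rfl
  rw [e4]
  have : (ν k : Measure ℝ) = (μ k : Measure ℝ).map (fun y => (√(a k))⁻¹ * y) := rfl
  rw [this, Measure.real, Measure.real, Measure.map_apply (by fun_prop) measurableSet_Iic]
  congr 2
  ext y
  simp only [Set.mem_preimage, Set.mem_Iic]
  rw [inv_mul_le_iff₀ hpos, mul_comm]

/-- The probability measure of a real statistic `c` under summable nonnegative weights `p`. -/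
noncomputable def wlaw {ι : Type*} (p c : ι → ℝ) : Measure ℝ :=
  Measure.sum (fun i => ENNReal.ofReal (p i / ∑' j, p j) • Measure.dirac (c i))

theorem wlaw_apply {ι : Type*} (p c : ι → ℝ) (hp : ∀ i, 0 ≤ p i) (hs : Summable p)
    {A : Set ℝ} (hA : MeasurableSet A) :
    wlaw p c A = ENNReal.ofReal ((∑' i, (c ⁻¹' A).indicator p i) / ∑' j, p j) := by
  have hZ0 : 0 ≤ ∑' j, p j := tsum_nonneg hp
  have h1 : (∑' i, (c ⁻¹' A).indicator p i) / ∑' j, p j
      = ∑' i, (c ⁻¹' A).indicator p i / ∑' j, p j := tsum_div_const.symm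
  rw [wlaw, Measure.sum_apply _ hA, h1, ENNReal.ofReal_tsum_of_nonneg]
  · refine tsum_congr fun i => ?_
    rw [Measure.smul_apply, Measure.dirac_apply' _ hA]
    by_cases hi : c i ∈ A
    · rw [Set.indicator_of_mem hi, Set.indicator_of_mem (show i ∈ c ⁻¹' A from hi)]
      simp
    · rw [Set.indicator_of_notMem hi, Set.indicator_of_notMem (show i ∉ c ⁻¹' A from hi)]
      simp
  · intro i
    exact div_nonneg (Set.indicator_nonneg (fun j _ => hp j) _) hZ0
  · exact (hs.indicator _).div_const _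

theorem wlaw_prob {ι : Type*} (p c : ι → ℝ) (hp : ∀ i, 0 ≤ p i) (hs : Summable p)
    (hZ : 0 < ∑' j, p j) : IsProbabilityMeasure (wlaw p c) := by
  refine ⟨?_⟩
  rw [wlaw_apply p c hp hs MeasurableSet.univ, Set.preimage_univ]
  have : ∀ i, (Set.univ : Set ι).indicator p i = p i := fun i => by simp
  simp_rw [this]
  rw [div_self hZ.ne', ENNReal.ofReal_one]

theorem charFun_wlaw {ι : Type*} [Countable ι] (p c : ι → ℝ) (hp : ∀ i, 0 ≤ p i) (b : ℝ) :
    charFun (wlaw p c) b
      = (∑' i, (p i : ℂ) * cexp (b * c i * Complex.I)) / ((∑' j, p j : ℝ) : ℂ) := by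
  have hZ0 : 0 ≤ ∑' j, p j := tsum_nonneg hp
  rw [charFun_apply_real, wlaw, integral_sum_dirac (fun i => ENNReal.ofReal_ne_top),
    ← tsum_div_const]
  refine tsum_congr fun i => ?_
  rw [ENNReal.toReal_ofReal (div_nonneg (hp i) hZ0), Complex.real_smul]
  push_cast
  ring

/-- **Central limit theorem for weighted sums** from mod-Gaussian convergence. -/
theorem ratio_clt {ι : ℕ → Type*} [∀ k, Countable (ι k)] (p c : ∀ k, ι k → ℝ)
    (hp : ∀ k i, 0 ≤ p k i) (hs : ∀ k, Summable (p k)) (hZ : ∀ k, 0 < ∑' i, p k i)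
    (a : ℕ → ℝ) (ha : Tendsto a atTop atTop)
    (v : ℝ) (hv : 0 < v) (b₀ : ℝ) (hb : 0 < b₀) (M : ℝ → ℂ) (hM : ContinuousAt M 0)
    (hM0 : M 0 = 1)
    (h : TendstoUniformlyOn
      (fun k (b : ℝ) => (∑' i, (p k i : ℂ) * cexp (b * c k i * Complex.I))
        / ((∑' i, p k i : ℝ) : ℂ) * cexp (v * a k * b ^ 2 / 2)) M atTop (Set.Icc (-b₀) b₀)) (x : ℝ) :
    Tendsto (fun k => (∑' i, if c k i ≤ x * √(a k) then p k i else 0) / ∑' i, p k i) atTop
      (𝓝 ((√(2 * π * v))⁻¹ * ∫ y in Set.Iic x, Real.exp (-y ^ 2 / (2 * v)))) := by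
  classical
  let μ : ℕ → ProbabilityMeasure ℝ := fun k =>
    ⟨wlaw (p k) (c k), wlaw_prob (p k) (c k) (hp k) (hs k) (hZ k)⟩
  have hv' : (⟨v, hv.le⟩ : ℝ≥0) ≠ 0 := by
    intro h0
    exact hv.ne' (congrArg NNReal.toReal h0)
  have key := clt_of_mod μ a ha ⟨v, hv.le⟩ b₀ hb M hM hM0 (by
    refine h.congr (Eventually.of_forall fun k b _ => ?_)
    change _ = charFun (wlaw (p k) (c k)) b * _
    rw [charFun_wlaw (p k) (c k) (hp k)]
    rfl) x hv'
  have e1 : (gaussianReal 0 ⟨v, hv.le⟩).real (Set.Iic x)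
      = (√(2 * π * v))⁻¹ * ∫ y in Set.Iic x, Real.exp (-y ^ 2 / (2 * v)) := by
    rw [Measure.real, gaussianReal_apply_eq_integral _ hv', ENNReal.toReal_ofReal, ←
      integral_const_mul]
    · refine integral_congr_ae (Eventually.of_forall fun y => ?_)
      simp only [gaussianPDFReal, sub_zero]
      rfl
    · exact integral_nonneg fun y => gaussianPDFReal_nonneg _ _ _
  rw [← e1]
  refine key.congr fun k => ?_
  change (wlaw (p k) (c k)).real _ = _
  rw [Measure.real, wlaw_apply (p k) (c k) (hp k) (hs k) measurableSet_Iic,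
    ENNReal.toReal_ofReal]
  · rfl
  · exact div_nonneg (tsum_nonneg fun i => Set.indicator_nonneg (fun j _ => hp k j) _)
      (tsum_nonneg (hp k))

end Pool.Agent.PW8
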